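import Pool.Agent.Lib.MP_107960_al.H53.Polys

/-!
# The chain of cancellations

`Bd [pF]` from five vanishing products.
-/

set_option autoImplicit false

namespace Pool.Agent.Lib.MP_107960_al.H53

universe u

open Pool.Agent.Lib.MP_107960_al.H95

/-- in every pair satisfying `Γ` the products `g * p` of values vanish -/
def Van (Γ : List Poly) (g p : Poly) : Prop :=
  ∀ (A : Type u) [Ring A] (L : AddSubgroup A), Pr A L → Md Γ L →
    ∀ l l' : ℕ → A, (∀ i, l i ∈ L) → (∀ i, l' i ∈ L) → ev l g * ev l' p = 0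

theorem Van.mono {Γ Γ' : List Poly} (h : ∀ p ∈ Γ, p ∈ Γ') {g p : Poly} (hv : Van.{u} Γ g p) :
    Van.{u} Γ' g p := fun A _ L hP hM => hv A L hP (fun q hq => hM q (h q hq))

/-- modulo `P = s_4` -/
theorem Bd_pP (h5 : Van.{u} [pP, pF] pT pS) : Bd.{u} [pP, pF] :=
  Bd_cancel Ml_pT Ml_pS h5 (Bd_pT _) (Bd_pS _)

/-- the whole chain: the four steps (II.1)–(II.4) and (I) -/
theorem Bd_pF {p10 r6p R5 : Poly} (m1 : Ml p10) (m2 : Ml r6p) (m3 : Ml R5)
    (h1 : Van.{u} [pF] pX p10)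
    (h2 : Van.{u} [p10, pF] pC r6p)
    (h3 : Van.{u} [r6p, p10, pF] R5 pN)
    (hN : ∀ Γ : List Poly, pF ∈ Γ → Bd.{u} (pN :: Γ))
    (h4 : Van.{u} [R5, r6p, p10, pF] pP pP)
    (h5 : Van.{u} [pP, pF] pT pS) : Bd.{u} [pF] := by
  apply Bd_cancel Ml_pX m1 h1 (Bd_pX _)
  apply Bd_cancel Ml_pC m2 h2 (Bd_pC _)
  apply Bd_cancel m3 Ml_pN h3 _ (hN _ (by simp))
  apply Bd_cancel Ml_pP Ml_pP h4
  all_goals
    apply Bd_mono _ (Bd_pP h5)
    intro p hp
    simp only [List.mem_cons, List.not_mem_nil, or_false] at hp ⊢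
    tauto

end Pool.Agent.Lib.MP_107960_al.H53
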