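import Mathlib

/-!
# MP_107960_al: `S = 0` implies `J ^ 3 = 0` (helper11's Step 1)

`A` is a ring with `3 = 0`, `L` an additive subgroup closed under commutators and generating `A`.
If `[a,c] ∘ [b,d] + [a,d] ∘ [b,c] = 0` for all `a b c d ∈ L`, then every product
`a₁ t₁ a₂ t₂ a₃ t₃` with `tᵢ = [[x,y],z]`, `x y z ∈ L`, is zero.
-/

set_option autoImplicit false

namespace Pool.Agent.Lib.MP_107960_al.H53

universe u

variable {A : Type u} [Ring A]

/-- The data of the lemma: `x * y - y * x` is a bracket on `L`, `3 = 0`, `S = 0`. -/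
structure Sys (A : Type u) [Ring A] where
  /-- the Lie ring -/
  L : AddSubgroup A
  closed : ∀ x ∈ L, ∀ y ∈ L, x * y - y * x ∈ L
  three : (3 : A) = 0
  hS : ∀ a ∈ L, ∀ b ∈ L, ∀ c ∈ L, ∀ d ∈ L,
    (a * c - c * a) * (b * d - d * b) + (b * d - d * b) * (a * c - c * a) +
      (a * d - d * a) * (b * c - c * b) + (b * c - c * b) * (a * d - d * a) = 0

namespace Sys

variable (s : Sys A)

include s in
theorem add3 (x : A) : x + x + x = 0 := by
  have : x + x + x = (3 : A) * x := by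
    rw [show (3 : A) = 1 + 1 + 1 by norm_num]; noncomm_ring
  rw [this, s.three, zero_mul]

include s in
theorem zero_of_two {x : A} (h : x + x = 0) : x = 0 := by
  have := s.add3 x
  rw [h, zero_add] at this
  exact this

include s in
theorem zero_of_neg {x : A} (h : x = -x) : x = 0 := by
  apply s.zero_of_two
  nth_rewrite 1 [h]
  exact neg_add_cancel x

/-- the bracket on `L` -/
def br (x y : s.L) : s.L := ⟨(x : A) * y - y * x, s.closed _ x.2 _ y.2⟩

@[simp] theorem coe_br (x y : s.L) : ((s.br x y : s.L) : A) = (x : A) * y - y * x := rfl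

/-- `[a,b] ∘ [c,d]` -/
def g (a b c d : s.L) : A := (s.br a b : A) * s.br c d + s.br c d * s.br a b

theorem g12 (a b c d : s.L) : s.g b a c d = - s.g a b c d := by
  simp only [g, coe_br]; noncomm_ring

theorem g34 (a b c d : s.L) : s.g a b d c = - s.g a b c d := by
  simp only [g, coe_br]; noncomm_ring

theorem g24 (a b c d : s.L) : s.g a d c b = - s.g a b c d := by
  have h := s.hS a a.2 c c.2 d d.2 b b.2
  rw [eq_neg_iff_add_eq_zero, ← h]
  simp only [g, coe_br]
  noncomm_ring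

theorem g23 (a b c d : s.L) : s.g a c b d = - s.g a b c d := by
  rw [s.g34 a c d b, s.g24 a b d c, s.g34 a b c d]; simp

/-- `[[a,b],c] ∘ [d,e]` -/
def H (a b c d e : s.L) : A := s.g (s.br a b) c d e

theorem H12 (a b c d e : s.L) : s.H b a c d e = - s.H a b c d e := by
  simp only [H, g, coe_br]; noncomm_ring

theorem H34 (a b c d e : s.L) : s.H a b d c e = - s.H a b c d e := s.g23 _ _ _ _

theorem H45 (a b c d e : s.L) : s.H a b c e d = - s.H a b c d e := s.g34 _ _ _ _

theorem H35 (a b c d e : s.L) : s.H a b e d c = - s.H a b c d e := s.g24 _ _ _ _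

theorem jac (a b c d e : s.L) : s.H a b c d e + s.H b c a d e + s.H c a b d e = 0 := by
  simp only [H, g, coe_br]; noncomm_ring

/-- disjoint pairs: `H a b c d e = H d e c a b` -/
theorem Hdisj (a b c d e : s.L) : s.H a b c d e = s.H d e c a b := by
  -- triangles `a b d`, `a b e`, `a d e`, `b d e`
  have t1 := s.jac a b d c e
  have t2 := s.jac a b e c d
  have t3 := s.jac a d e c b
  have t4 := s.jac b d e c a
  have e1 : s.H a b d c e = - s.H a b c d e := s.H34 _ _ _ _ _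
  have e2 : s.H a b e c d = s.H a b c d e := by rw [s.H34 a b c e d, s.H45 a b c d e, neg_neg]
  have e3 : s.H a d e c b = s.H d a b c e := by rw [s.H12 d a e c b, s.H35 d a b c e, neg_neg]
  have e4 : s.H d e a c b = - s.H d e c a b := s.H34 _ _ _ _ _
  have e5 : s.H e a d c b = - s.H e a b c d := s.H35 _ _ _ _ _
  have e6 : s.H b d e c a = - s.H b d a c e := s.H35 _ _ _ _ _
  have e7 : s.H d e b c a = s.H d e c a b := by rw [s.H34 d e c b a, s.H45 d e c a b, neg_neg]
  have e8 : s.H e b d c a = s.H b e a c d := by rw [s.H12 b e d c a, s.H35 b e a c d, neg_neg]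
  rw [e1] at t1
  rw [e2] at t2
  rw [e3, e4, e5] at t3
  rw [e6, e7, e8] at t4
  rw [← sub_eq_zero]
  apply s.zero_of_two
  have : s.H a b c d e - s.H d e c a b + (s.H a b c d e - s.H d e c a b) =
      (s.H a b c d e + s.H b e a c d + s.H e a b c d) -
      (- s.H a b c d e + s.H b d a c e + s.H d a b c e) -
      (-s.H b d a c e + s.H d e c a b + s.H b e a c d) +
      (s.H d a b c e + - s.H d e c a b + - s.H e a b c d) := by abel
  rw [this, t1, t2, t3, t4]
  simp

/-- `H` is alternating in all five letters: the missing adjacent swap -/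
theorem H23 (a b c d e : s.L) : s.H a c b d e = - s.H a b c d e := by
  rw [s.Hdisj a b c d e, s.Hdisj a c b d e, s.H35 d e c a b]

theorem H13 (a b c d e : s.L) : s.H c b a d e = - s.H a b c d e := by
  rw [s.H12 b c a d e, s.H23 b a c d e, s.H12 a b c d e, neg_neg]

/-- `[[a,b],c] ∘ [[d,e],f]` -/
def K (a b c d e f : s.L) : A := s.H a b c (s.br d e) f

theorem K13 (a b c d e f : s.L) : s.K c b a d e f = - s.K a b c d e f := s.H13 _ _ _ _ _

theorem K23 (a b c d e f : s.L) : s.K a c b d e f = - s.K a b c d e f := s.H23 _ _ _ _ _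

theorem K36 (a b c d e f : s.L) : s.K a b f d e c = - s.K a b c d e f := s.H35 _ _ _ _ _

theorem Ksymm (a b c d e f : s.L) : s.K d e f a b c = s.K a b c d e f := by
  simp only [K, H, g, coe_br]; noncomm_ring

theorem K46 (a b c d e f : s.L) : s.K a b c f e d = - s.K a b c d e f := by
  rw [← s.Ksymm a b c f e d, s.K13 d e f a b c, s.Ksymm a b c d e f]

theorem K56 (a b c d e f : s.L) : s.K a b c d f e = - s.K a b c d e f := by
  rw [← s.Ksymm a b c d f e, s.K23 d e f a b c, s.Ksymm a b c d e f]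

theorem K25 (a b c d e f : s.L) : s.K a e c d b f = - s.K a b c d e f := by
  rw [s.K23 a c e d b f, s.K56 a c e d f b, s.K36 a c b d f e, s.K23 a b c d f e,
    s.K56 a b c d e f]
  simp

theorem K14 (a b c d e f : s.L) : s.K d b c a e f = - s.K a b c d e f := by
  rw [s.K13 c b d a e f, s.K46 c b d f e a, s.K36 c b a f e d, s.K13 a b c f e d,
    s.K46 a b c d e f]
  simp

theorem K_zero (a b c d e f : s.L) : s.K a b c d e f = 0 := by
  apply s.zero_of_neg
  conv_lhs => rw [← s.Ksymm a b c d e f, s.K14 a e f d b c, s.K25 a b f d e c, s.K36 a b c d e f]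
  simp

/-- triple brackets -/
def tri (x y z : s.L) : s.L := s.br (s.br x y) z

/-- the set of triple brackets -/
def T : Set A := {t | ∃ x y z : s.L, t = s.tri x y z}

theorem anti {t t' : A} (ht : t ∈ s.T) (ht' : t' ∈ s.T) : t * t' = - (t' * t) := by
  obtain ⟨a, b, c, rfl⟩ := ht
  obtain ⟨d, e, f, rfl⟩ := ht'
  have h := s.K_zero a b c d e f
  rw [eq_neg_iff_add_eq_zero, ← h]
  rfl

theorem T_L {t : A} (ht : t ∈ s.T) (l : s.L) : t * l - l * t ∈ s.T := by
  obtain ⟨a, b, c, rfl⟩ := ht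
  exact ⟨s.br a b, c, l, rfl⟩

theorem T_sub {t : A} (ht : t ∈ s.T) : t ∈ s.L := by
  obtain ⟨a, b, c, rfl⟩ := ht
  exact (s.tri a b c).2

theorem ttt {t₁ t₂ t₃ : A} (h₁ : t₁ ∈ s.T) (h₂ : t₂ ∈ s.T) (h₃ : t₃ ∈ s.T) :
    t₁ * t₂ * t₃ = 0 := by
  -- `t₁ t₂ = - [t₁,t₂]`
  have hc : t₁ * t₂ - t₂ * t₁ ∈ s.T := s.T_L h₁ ⟨t₂, s.T_sub h₂⟩
  have h12 : t₁ * t₂ = -(t₁ * t₂ - t₂ * t₁) := by
    have h := s.anti h₂ h₁
    rw [h]
    have h3 := s.add3 (t₁ * t₂)
    rw [eq_neg_iff_add_eq_zero, sub_neg_eq_add, ← h3]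
    abel
  have e1 : t₁ * t₂ * t₃ = - (t₃ * (t₁ * t₂)) := by
    rw [h12, neg_mul, s.anti hc h₃, neg_neg, mul_neg, neg_neg]
  have e2 : t₁ * t₂ * t₃ = t₃ * (t₁ * t₂) := by
    rw [mul_assoc, s.anti h₂ h₃, mul_neg, ← mul_assoc, s.anti h₁ h₃]
    simp [mul_assoc]
  apply s.zero_of_two
  nth_rewrite 1 [e1]
  rw [e2]
  simp

/-- the left ideal generated by the triple brackets, as an additive subgroup -/
def M : AddSubgroup A := AddSubgroup.closure {z | ∃ a : A, ∃ t ∈ s.T, z = a * t}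

theorem mul_mem_M {a t : A} (ht : t ∈ s.T) : a * t ∈ s.M :=
  AddSubgroup.subset_closure ⟨a, t, ht, rfl⟩

theorem left_M {z : A} (hz : z ∈ s.M) (a : A) : a * z ∈ s.M := by
  induction hz using AddSubgroup.closure_induction with
  | mem z hz => obtain ⟨b, t, ht, rfl⟩ := hz; rw [← mul_assoc]; exact s.mul_mem_M ht
  | zero => rw [mul_zero]; exact s.M.zero_mem
  | add x y _ _ hx hy => rw [mul_add]; exact s.M.add_mem hx hy
  | neg x _ hx => rw [mul_neg]; exact s.M.neg_mem hx

theorem right_M (hgen : Subring.closure (s.L : Set A) = ⊤) (a : A) :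
    ∀ z ∈ s.M, z * a ∈ s.M := by
  have ha : a ∈ Subring.closure (s.L : Set A) := by rw [hgen]; trivial
  induction ha using Subring.closure_induction with
  | mem l hl =>
    intro z hz
    induction hz using AddSubgroup.closure_induction with
    | mem z hz =>
      obtain ⟨b, t, ht, rfl⟩ := hz
      have : b * t * l = b * l * t + b * (t * l - l * t) := by noncomm_ring
      rw [this]
      exact s.M.add_mem (s.mul_mem_M ht) (s.mul_mem_M (s.T_L ht ⟨l, hl⟩))
    | zero => rw [zero_mul]; exact s.M.zero_mem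
    | add x y _ _ hx hy => rw [add_mul]; exact s.M.add_mem hx hy
    | neg x _ hx => rw [neg_mul]; exact s.M.neg_mem hx
  | zero => intro z _; rw [mul_zero]; exact s.M.zero_mem
  | one => intro z hz; rwa [mul_one]
  | add x y _ _ hx hy => intro z hz; rw [mul_add]; exact s.M.add_mem (hx z hz) (hy z hz)
  | neg x _ hx => intro z hz; rw [mul_neg]; exact s.M.neg_mem (hx z hz)
  | mul x y _ _ hx hy => intro z hz; rw [← mul_assoc]; exact hy _ (hx z hz)

theorem zero_of_T {w : A} (h : ∀ t ∈ s.T, t * w = 0) {z : A} (hz : z ∈ s.M) : z * w = 0 := by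
  induction hz using AddSubgroup.closure_induction with
  | mem z hz => obtain ⟨b, t, ht, rfl⟩ := hz; rw [mul_assoc, h t ht, mul_zero]
  | zero => rw [zero_mul]
  | add x y _ _ hx hy => rw [add_mul, hx, hy, add_zero]
  | neg x _ hx => rw [neg_mul, hx, neg_zero]

/-- `A t₁ A t₂ A t₃ = 0` -/
theorem final (hgen : Subring.closure (s.L : Set A) = ⊤) {z₁ z₂ z₃ : A}
    (h₁ : z₁ ∈ s.M) (h₂ : z₂ ∈ s.M) (h₃ : z₃ ∈ s.M) : z₁ * (z₂ * z₃) = 0 := by
  have one_mem : ∀ t ∈ s.T, t ∈ s.M := fun t ht => by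
    have := s.mul_mem_M (a := 1) ht
    rwa [one_mul] at this
  have k3 : ∀ z ∈ s.M, ∀ t₂ ∈ s.T, ∀ t₃ ∈ s.T, z * (t₂ * t₃) = 0 := fun z hz t₂ h2 t₃ h3 =>
    s.zero_of_T (fun t ht => by rw [← mul_assoc]; exact s.ttt ht h2 h3) hz
  have k2 : ∀ z ∈ s.M, ∀ t₁ ∈ s.T, ∀ t₃ ∈ s.T, t₁ * (z * t₃) = 0 := by
    intro z hz t₁ h1 t₃ h3
    induction hz using AddSubgroup.closure_induction with
    | mem z hz =>
      obtain ⟨b, t, ht, rfl⟩ := hz
      have : t₁ * (b * t * t₃) = (t₁ * b) * (t * t₃) := by noncomm_ring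
      rw [this]
      exact k3 _ (s.right_M hgen b _ (one_mem _ h1)) _ ht _ h3
    | zero => rw [zero_mul, mul_zero]
    | add x y _ _ hx hy => rw [add_mul, mul_add, hx, hy, add_zero]
    | neg x _ hx => rw [neg_mul, mul_neg, hx, neg_zero]
  have k1 : ∀ t₁ ∈ s.T, t₁ * (z₂ * z₃) = 0 := by
    intro t₁ h1
    clear h₁
    induction h₃ using AddSubgroup.closure_induction with
    | mem z hz =>
      obtain ⟨b, t, ht, rfl⟩ := hz
      have : t₁ * (z₂ * (b * t)) = t₁ * ((z₂ * b) * t) := by noncomm_ring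
      rw [this]
      exact k2 _ (s.right_M hgen b _ h₂) _ h1 _ ht
    | zero => rw [mul_zero, mul_zero]
    | add x y _ _ hx hy => rw [mul_add, mul_add, hx, hy, add_zero]
    | neg x _ hx => rw [mul_neg, mul_neg, hx, neg_zero]
  exact s.zero_of_T k1 h₁

end Sys

/-- **Mod `S`, `J³ = 0`.** -/
theorem modS (A : Type u) [Ring A] (h3 : (3 : A) = 0) (L : AddSubgroup A)
    (hL : ∀ x ∈ L, ∀ y ∈ L, x * y - y * x ∈ L) (hgen : Subring.closure (L : Set A) = ⊤)
    (hS : ∀ a ∈ L, ∀ b ∈ L, ∀ c ∈ L, ∀ d ∈ L,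
      (a * c - c * a) * (b * d - d * b) + (b * d - d * b) * (a * c - c * a) +
        (a * d - d * a) * (b * c - c * b) + (b * c - c * b) * (a * d - d * a) = 0)
    (a t : Fin 3 → A)
    (ht : ∀ i, ∃ x ∈ L, ∃ y ∈ L, ∃ z ∈ L, t i = (x * y - y * x) * z - z * (x * y - y * x)) :
    (List.ofFn (fun i => a i * t i)).prod = 0 := by
  let s : Sys A := ⟨L, hL, h3, hS⟩
  have hT : ∀ i, t i ∈ s.T := by
    intro i
    obtain ⟨x, hx, y, hy, z, hz, h⟩ := ht i
    exact ⟨⟨x, hx⟩, ⟨y, hy⟩, ⟨z, hz⟩, h⟩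
  have h := s.final hgen (s.mul_mem_M (a := a 0) (hT 0)) (s.mul_mem_M (a := a 1) (hT 1))
    (s.mul_mem_M (a := a 2) (hT 2))
  simpa [List.ofFn_succ] using h

end Pool.Agent.Lib.MP_107960_al.H53
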