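import Pool.Agent.Lib.MP_107960_al.H95.Bd
import Pool.Agent.Lib.MP_107960_al.H17.RingStep
import Pool.Agent.Lib.MP_107960_al.H53.ModS

/-!
# The basic multilinear polynomials of the project
-/

set_option autoImplicit false

namespace Pool.Agent.Lib.MP_107960_al.H53

universe u

open Pool.Agent.Lib.MP_107960_al.H95

/-- the polarised law `f` (letters 0,1,2 | 3,4) -/
def pF : Poly := [
  (1, [0, 1, 3, 2, 4]), (2, [0, 1, 3, 4, 2]), (1, [0, 1, 4, 2, 3]), (2, [0, 1, 4, 3, 2]),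
     (1, [0, 2, 3, 1, 4]), (2, [0, 2, 3, 4, 1]), (1, [0, 2, 4, 1, 3]), (2, [0, 2, 4, 3, 1]),
      (2, [0, 3, 1, 2, 4]), (1, [0, 3, 1, 4, 2]), (2, [0, 3, 2, 1, 4]), (1, [0, 3, 2, 4, 1]),
      (2, [0, 4, 1, 2, 3]), (1, [0, 4, 1, 3, 2]), (2, [0, 4, 2, 1, 3]), (1, [0, 4, 2, 3, 1]),
     (1, [1, 0, 3, 2, 4]), (2, [1, 0, 3, 4, 2]), (1, [1, 0, 4, 2, 3]), (2, [1, 0, 4, 3, 2]),
     (1, [1, 2, 3, 0, 4]), (2, [1, 2, 3, 4, 0]), (1, [1, 2, 4, 0, 3]), (2, [1, 2, 4, 3, 0]),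
      (2, [1, 3, 0, 2, 4]), (1, [1, 3, 0, 4, 2]), (2, [1, 3, 2, 0, 4]), (1, [1, 3, 2, 4, 0]),
      (2, [1, 4, 0, 2, 3]), (1, [1, 4, 0, 3, 2]), (2, [1, 4, 2, 0, 3]), (1, [1, 4, 2, 3, 0]),
     (1, [2, 0, 3, 1, 4]), (2, [2, 0, 3, 4, 1]), (1, [2, 0, 4, 1, 3]), (2, [2, 0, 4, 3, 1]),
     (1, [2, 1, 3, 0, 4]), (2, [2, 1, 3, 4, 0]), (1, [2, 1, 4, 0, 3]), (2, [2, 1, 4, 3, 0]),
      (2, [2, 3, 0, 1, 4]), (1, [2, 3, 0, 4, 1]), (2, [2, 3, 1, 0, 4]), (1, [2, 3, 1, 4, 0]),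
      (2, [2, 4, 0, 1, 3]), (1, [2, 4, 0, 3, 1]), (2, [2, 4, 1, 0, 3]), (1, [2, 4, 1, 3, 0])]

/-- `S(0,1|2,3)` -/
def pS : Poly := [
  (1, [0, 2, 1, 3]), (2, [0, 2, 3, 1]), (1, [0, 3, 1, 2]), (2, [0, 3, 2, 1]),
     (1, [1, 2, 0, 3]), (2, [1, 2, 3, 0]), (1, [1, 3, 0, 2]), (2, [1, 3, 2, 0]),
      (2, [2, 0, 1, 3]), (1, [2, 0, 3, 1]), (2, [2, 1, 0, 3]), (1, [2, 1, 3, 0]),
      (2, [3, 0, 1, 2]), (1, [3, 0, 2, 1]), (2, [3, 1, 0, 2]), (1, [3, 1, 2, 0])]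

/-- `[x,[y,z]] + [y,[x,z]]`, the sum of all six words modulo 3 -/
def pN : Poly := [
  (1, [0, 1, 2]), (1, [0, 2, 1]), (1, [1, 0, 2]), (1, [1, 2, 0]), (1, [2, 0, 1]),
     (1, [2, 1, 0])]

/-- the standard polynomial `s_4` -/
def pP : Poly := [
  (1, [0, 1, 2, 3]), (2, [0, 1, 3, 2]), (2, [0, 2, 1, 3]), (1, [0, 2, 3, 1]),
     (1, [0, 3, 1, 2]), (2, [0, 3, 2, 1]), (2, [1, 0, 2, 3]), (1, [1, 0, 3, 2]),
     (1, [1, 2, 0, 3]), (2, [1, 2, 3, 0]), (2, [1, 3, 0, 2]), (1, [1, 3, 2, 0]),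
     (1, [2, 0, 1, 3]), (2, [2, 0, 3, 1]), (2, [2, 1, 0, 3]), (1, [2, 1, 3, 0]),
     (1, [2, 3, 0, 1]), (2, [2, 3, 1, 0]), (2, [3, 0, 1, 2]), (1, [3, 0, 2, 1]),
     (1, [3, 1, 0, 2]), (2, [3, 1, 2, 0]), (2, [3, 2, 0, 1]), (1, [3, 2, 1, 0])]

/-- `Ml` by a decidable check -/
theorem Ml_of {p : Poly} (n : ℕ) (h : p.all (fun t => decide (t.2.Perm (List.range n))) = true) :
    Ml p := by
  refine ⟨List.range n, List.nodup_range, fun t ht => ?_⟩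
  have := List.all_eq_true.1 h t ht
  exact of_decide_eq_true this

theorem Ml_pF : Ml pF := Ml_of 5 (by decide)

theorem Ml_pS : Ml pS := Ml_of 4 (by decide)

theorem Ml_pN : Ml pN := Ml_of 3 (by decide)

theorem Ml_pP : Ml pP := Ml_of 4 (by decide)

theorem Ml_pX : Ml pX := Ml_of 1 (by decide)

theorem Ml_pC : Ml pC := Ml_of 2 (by decide)

theorem Ml_pT : Ml pT := Ml_of 3 (by decide)

section ev
variable {R : Type u} [Ring R] (h3 : (3 : R) = 0) (v : ℕ → R)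
include h3

theorem ev_pF : ev v pF = H17.FF (v 0) (v 1) (v 2) (v 3) (v 4) := by
  simp only [pF, ev_cons, ev_nil, wd_cons, wd_nil, H17.FF, H17.SS, H17.bk]
  push_cast
  rw [two_eq h3]
  noncomm_ring

theorem ev_pS : ev v pS = H17.SS (v 0) (v 1) (v 2) (v 3) := by
  simp only [pS, ev_cons, ev_nil, wd_cons, wd_nil, H17.SS, H17.bk]
  push_cast
  rw [two_eq h3]
  noncomm_ring

theorem ev_pN : ev v pN = H17.bk (v 0) (H17.bk (v 1) (v 2)) + H17.bk (v 1) (H17.bk (v 0) (v 2)) := by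
  have e : ∀ x : R, -(x + x) = x := by
    intro x
    have : x + x + x = 0 := by
      have h : (3 : R) * x = 0 := by rw [h3, zero_mul]
      rw [← h]; noncomm_ring
    rw [neg_eq_iff_add_eq_zero]
    exact this
  have e0 := e (v 0 * v 2 * v 1)
  have e1 := e (v 1 * v 2 * v 0)
  simp only [pN, ev_cons, ev_nil, wd_cons, wd_nil, H17.bk]
  push_cast
  have h : v 0 * (v 1 * v 2 - v 2 * v 1) - (v 1 * v 2 - v 2 * v 1) * v 0
      + (v 1 * (v 0 * v 2 - v 2 * v 0) - (v 0 * v 2 - v 2 * v 0) * v 1)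
      = v 0 * v 1 * v 2 + v 1 * v 0 * v 2 + v 2 * v 1 * v 0 + v 2 * v 0 * v 1
        + -(v 0 * v 2 * v 1 + v 0 * v 2 * v 1) + -(v 1 * v 2 * v 0 + v 1 * v 2 * v 0) := by
    noncomm_ring
  rw [h, e0, e1]
  noncomm_ring

end ev

/-- `S = 0` is bounded -/
theorem Bd_pS (Γ : List Poly) : Bd.{u} (pS :: Γ) := by
  refine ⟨3, fun A _ L hP hM a t ht => ?_⟩
  refine modS A hP.h3 L hP.cl hP.gen ?_ a t ht
  intro x hx y hy z hz w hw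
  have h := (hM pS List.mem_cons_self).2
    (fun i => if i = 0 then x else if i = 1 then y else if i = 2 then z else w)
    (by
      intro i
      by_cases h0 : i = 0 <;> by_cases h1 : i = 1 <;> by_cases h2 : i = 2 <;>
        simp [h0, h1, h2, hx, hy, hz, hw])
  rw [ev_pS hP.h3] at h
  simpa [H17.SS, H17.bk] using h

/-- boundedness for the law gives (A') -/
theorem exists_APrime (h : Bd.{u} [pF]) : ∃ M, H17.APrime.{u} M := by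
  obtain ⟨M, hM⟩ := h
  refine ⟨M, fun A _ h3 L hcl hgen hF a t ht => ?_⟩
  apply hM A L ⟨h3, hcl, hgen⟩ _ a t ht
  intro p hp
  rw [List.mem_singleton] at hp
  subst hp
  refine ⟨Ml_pF, fun v hv => ?_⟩
  rw [ev_pF h3]
  exact hF _ (hv 0) _ (hv 1) _ (hv 2) _ (hv 3) _ (hv 4)

end Pool.Agent.Lib.MP_107960_al.H53
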